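import Pool.Agent.H37.CND.Stmts

set_option autoImplicit false

namespace Pool.CND

theorem ngl_thm : S_NGL := by
  intro k G _ _ q hq hc hinf
  unfold NG
  apply le_antisymm
  · apply Nat.sInf_le
    refine ⟨hq, ?_⟩
    have he : {c : ℚ | c ∈ Cond k G ∧ ¬ ∃ z : ℤ, (q : ℚ) * c = z} = ∅ := by
      ext c
      constructor
      · rintro ⟨h1, h2⟩
        exact absurd (hc c h1) h2
      · intro h
        exact absurd h (Set.notMem_empty c)
    rw [he]
    exact Set.finite_empty
  · have hne : {N : ℕ | 1 ≤ N ∧ {c : ℚ | c ∈ Cond k G ∧ ¬ ∃ z : ℤ, (N : ℚ) * c = z}.Finite}.Nonempty := by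
      refine ⟨q, hq, ?_⟩
      have he : {c : ℚ | c ∈ Cond k G ∧ ¬ ∃ z : ℤ, (q : ℚ) * c = z} = ∅ := by
        ext c
        constructor
        · rintro ⟨h1, h2⟩
          exact absurd (hc c h1) h2
        · intro h
          exact absurd h (Set.notMem_empty c)
      rw [he]
      exact Set.finite_empty
    have hm := Nat.sInf_mem hne
    obtain ⟨h1, h2⟩ := hm
    have hdvd : q ∣ sInf {N : ℕ | 1 ≤ N ∧
        {c : ℚ | c ∈ Cond k G ∧ ¬ ∃ z : ℤ, (N : ℚ) * c = z}.Finite} := by
      by_contra hcon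
      exact hinf _ h1 hcon h2
    exact Nat.le_of_dvd (by omega) hdvd

end Pool.CND
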