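import Pool.Agent.H37.CND.Stmts

set_option autoImplicit false

namespace Pool.CND

theorem rst_thm : S_RST := by
  intro k L G _ _ _ _ _ P ρ N F Q g hF hQ h1 h2 hfix
  have hmap : ∀ x : L, x ∈ F → ρ g x ∈ F := by
    intro x hx
    rw [hF]
    intro n hn
    have h3 := (hF x).1 hx (g⁻¹ * n * g) (h2 n hn)
    have h4 : ρ n (ρ g x) = ρ g (ρ (g⁻¹ * n * g) x) := by
      rw [← AlgEquiv.mul_apply, ← AlgEquiv.mul_apply, ← map_mul, ← map_mul]
      congr 2
      group
    rw [h4, h3]
  have hmap' : ∀ x : L, x ∈ F → ρ g⁻¹ x ∈ F := by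
    intro x hx
    rw [hF]
    intro n hn
    have h3 := (hF x).1 hx (g * n * g⁻¹) (h1 n hn)
    have h4 : ρ n (ρ g⁻¹ x) = ρ g⁻¹ (ρ (g * n * g⁻¹) x) := by
      rw [← AlgEquiv.mul_apply, ← AlgEquiv.mul_apply, ← map_mul, ← map_mul]
      congr 2
      group
    rw [h4, h3]
  let γ : F ≃ₐ[k] F :=
    { toFun := fun x => ⟨ρ g x, hmap x x.2⟩
      invFun := fun x => ⟨ρ g⁻¹ x, hmap' x x.2⟩
      left_inv := by
        intro x
        apply Subtype.ext
        show ρ g⁻¹ (ρ g x) = x
        rw [← AlgEquiv.mul_apply, ← map_mul, inv_mul_cancel, map_one, AlgEquiv.one_apply]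
      right_inv := by
        intro x
        apply Subtype.ext
        show ρ g (ρ g⁻¹ x) = x
        rw [← AlgEquiv.mul_apply, ← map_mul, mul_inv_cancel, map_one, AlgEquiv.one_apply]
      map_mul' := by
        intro x y
        apply Subtype.ext
        show ρ g ((x : L) * y) = ρ g x * ρ g y
        rw [map_mul]
      map_add' := by
        intro x y
        apply Subtype.ext
        show ρ g ((x : L) + y) = ρ g x + ρ g y
        rw [map_add]
      commutes' := by
        intro c
        apply Subtype.ext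
        show ρ g (algebraMap k L c) = algebraMap k L c
        rw [AlgEquiv.commutes] }
  have hγ : ∀ x : F, ((γ x : F) : L) = ρ g x := fun x => rfl
  refine ⟨γ, hγ, ?_⟩
  intro x hx
  have hx' : γ x ≠ 0 := by simpa using hx
  have hxL : (x : L) ≠ 0 := by simpa using hx
  have e1 := hQ x hx
  have e2 := hQ (γ x) hx'
  rw [hγ, hfix _ hxL, ← e1] at e2
  have hN : (Nat.card N : ℤ) ≠ 0 := by
    have : 0 < Nat.card N := Nat.card_pos
    omega
  exact mul_left_cancel₀ hN e2

end Pool.CND
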