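import Pool.Agent.H37.CND.Stmts

set_option autoImplicit false

namespace Pool.CND

open Finset

/-- order of `B_w(x) + β` for `w ≠ 0` -/
theorem cvb_ord {p : ℕ} {k L : Type} [Field k] [Field L] [Algebra k L] [Fact p.Prime]
    (h m : ℕ) (x : L) (P : Place k L) (w β : k) (hh : 1 ≤ h) (hm : 1 ≤ m) (hx : x ≠ 0)
    (ox : P.ord x = -((m * p : ℕ) : ℤ)) (hw : w ≠ 0) :
    Bf p h (algebraMap k L w) x + algebraMap k L β ≠ 0 ∧
      P.ord (Bf p h (algebraMap k L w) x + algebraMap k L β) = -((m * p ^ h : ℕ) : ℤ) := by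
  have hp := (Fact.out : p.Prime)
  obtain ⟨h', rfl⟩ : ∃ h', h = h' + 1 := ⟨h - 1, by omega⟩
  set c : L := (algebraMap k L w) ^ (p ^ (h' + 1)) * x with hc
  have hwL : algebraMap k L w ≠ 0 := by simpa using hw
  have hwp : (algebraMap k L w) ^ (p ^ (h' + 1)) ≠ 0 := pow_ne_zero _ hwL
  have hc0 : c ≠ 0 := mul_ne_zero hwp hx
  have oc : P.ord c = -((m * p : ℕ) : ℤ) := by
    rw [hc, P.ord_mul _ _ hwp hx, P.ord_pow hwL, P.ord_const w hw, ox]
    ring
  have e1 : Bf p (h' + 1) (algebraMap k L w) x + algebraMap k L β =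
      -(c ^ (p ^ h')) + (-(∑ i ∈ range h', c ^ (p ^ i)) + algebraMap k L β) := by
    rw [Bf, sum_range_succ]
    ring
  have o1 : P.ord (-(c ^ (p ^ h'))) = -((m * p ^ (h' + 1) : ℕ) : ℤ) := by
    rw [P.ord_neg, P.ord_pow hc0, oc]
    push_cast
    ring
  have n1 : -(c ^ (p ^ h')) ≠ 0 := neg_ne_zero.2 (pow_ne_zero _ hc0)
  have g1 : P.Ge (-(∑ i ∈ range h', c ^ (p ^ i)) + algebraMap k L β)
      (P.ord (-(c ^ (p ^ h'))) + 1) := by
    rw [o1]
    have hpos : (1 : ℤ) ≤ ((m * p ^ (h' + 1) : ℕ) : ℤ) := by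
      have : 0 < m * p ^ (h' + 1) := Nat.mul_pos (by omega) (Nat.pow_pos hp.pos)
      omega
    apply P.ge_add
    · apply P.ge_neg
      apply P.ge_sum
      intro i hi
      have hi' := mem_range.1 hi
      refine Or.inr ?_
      rw [P.ord_pow hc0, oc]
      have h2 : m * p ^ (i + 1) + 1 ≤ m * p ^ (h' + 1) := by
        have h3 : p ^ (i + 1) < p ^ (h' + 1) := Nat.pow_lt_pow_right hp.one_lt (by omega)
        have h4 : m * p ^ (i + 1) < m * p ^ (h' + 1) := Nat.mul_lt_mul_of_pos_left h3 (by omega)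
        omega
      have h5 : ((m * p ^ (i + 1) + 1 : ℕ) : ℤ) ≤ ((m * p ^ (h' + 1) : ℕ) : ℤ) := by
        exact_mod_cast h2
      have h6 : ((p ^ i : ℕ) : ℤ) * -((m * p : ℕ) : ℤ) = -((m * p ^ (i + 1) : ℕ) : ℤ) := by
        push_cast
        ring
      rw [h6]
      push_cast at h5 ⊢
      linarith
    · exact P.ge_mono (P.ge_const β) (by linarith)
  obtain ⟨r1, r2⟩ := P.ord_add_of_lt n1 g1
  rw [e1]
  exact ⟨r1, r2.trans o1⟩

theorem cvb_thm (h1 : S_CVF) (h2 : S_TMO) (h3 : S_LO2) (h4 : S_INJ) (h5 : S_EGC) : S_CVB := by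
  intro p k L _ _ _ _ _ _ h m s x y ρ P hh hm hpm hC g hg
  have hp := (Fact.out : p.Prime)
  have hF : ∀ g : EG k p h, Fixes P (ρ g) := h1 p k L h m s x y ρ P hh hm hpm hC
  have hinj : ∀ g : EG k p h, ρ g = 1 → g = 1 := by
    intro g hg
    have ax := hC.act_x g
    have ay := hC.act_y g
    rw [hg, AlgEquiv.one_apply] at ax ay
    have w0 : g.w = 0 := by
      have : algebraMap k L g.w = 0 := by linear_combination -ax
      simpa using this
    rw [w0, map_zero, Bf_zero_left] at ay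
    have b0 : g.β = 0 := by
      have : algebraMap k L g.β = 0 := by linear_combination -ay
      simpa using this
    exact EG.ext (by rw [w0, EG.one_w]) (by rw [b0, EG.one_β])
  have hram0 : ∀ g : EG k p h, g ∈ ram P ρ 0 := by
    intro g
    refine ⟨hF g, ?_⟩
    intro u hu ou
    by_cases he : ρ g u = u
    · exact Or.inl he
    · refine Or.inr ?_
      have hgu : ρ g u ≠ 0 := by simpa using hu
      have hne : ρ g u + -u ≠ 0 := fun hcon => he (by linear_combination hcon)
      have h6 := P.ord_add (ρ g u) (-u) hgu (neg_ne_zero.2 hu) hne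
      rw [P.ord_neg, hF g u hu, ou, ← sub_eq_add_neg] at h6
      simpa using h6
  have hram1 : ∀ g : EG k p h, g ∈ ram P ρ 1 := by
    obtain ⟨hfin, hcard⟩ := h5 p k h hh
    have key : ∀ (n : ℕ) (g : EG k p h), g ^ (p ^ n) = 1 → g ∈ ram P ρ 1 := by
      intro n
      induction n with
      | zero =>
        intro g hg
        rw [pow_zero, pow_one] at hg
        rw [hg]
        refine ⟨hF 1, ?_⟩
        intro u _ _
        left
        rw [map_one, AlgEquiv.one_apply]
      | succ n ih =>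
        intro g hg
        apply h2 p k L (EG k p h) P ρ hp inferInstance g (hram0 g)
        apply ih
        rw [← pow_mul, ← hg, pow_succ]
        ring_nf
    intro g
    apply key (2 * h + 1)
    rw [← hcard]
    exact pow_card_eq_one'
  have hpi : ρ g P.pi ≠ P.pi := by
    intro hcon
    exact hg (hinj g (h4 k L P (ρ g) P.pi (hF g) P.pi_ne P.ord_pi hcon))
  have hb : P.ord (ρ g P.pi - P.pi) = P.b (ρ g) + 1 := by
    rw [Place.b]
    ring
  have hb1 : 1 ≤ P.b (ρ g) := by
    have h6 := ((hram1 g).2 P.pi P.pi_ne P.ord_pi).resolve_left hpi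
    rw [hb] at h6
    push_cast at h6
    linarith
  have hy : ¬ (p : ℤ) ∣ P.ord y := by
    rw [hC.ord_y]
    intro hcon
    rw [dvd_neg] at hcon
    have h6 : p ∣ m * (p ^ h + 1) := by exact_mod_cast hcon
    rcases (Nat.Prime.dvd_mul hp).1 h6 with h7 | h7
    · exact hpm h7
    · have h8 : p ∣ p ^ h := dvd_pow_self p (by omega)
      have h9 : p ∣ 1 := (Nat.dvd_add_right h8).1 h7
      exact hp.one_lt.ne' (Nat.dvd_one.1 h9)
  have h6 := (h3 p k L P (ρ g) P.pi (P.b (ρ g)) hp inferInstance (hF g) P.pi_ne P.ord_pi hb1 hpi hb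
    y hC.y_ne).1 hy
  obtain ⟨-, h7⟩ := h6
  have e1 : ρ g y - y = Bf p h (algebraMap k L g.w) x + algebraMap k L g.β := by
    rw [hC.act_y g]
    ring
  rw [e1, hC.ord_y] at h7
  constructor
  · intro hw
    have h8 := (cvb_ord h m x P g.w g.β hh hm hC.x_ne hC.ord_x hw).2
    rw [h8] at h7
    push_cast at h7
    linarith
  · intro hw
    have hβ : g.β ≠ 0 := by
      intro h0
      exact hg (EG.ext (by rw [hw, EG.one_w]) (by rw [h0, EG.one_β]))
    rw [hw, map_zero, Bf_zero_left, zero_add, P.ord_const g.β hβ] at h7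
    push_cast at h7
    linarith

end Pool.CND
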